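import Pool.Agent.SepDist.Strip

/-!
# Sets of pairs of points of a distance-separated set

The estimates of `Pool.Agent.SepDist.Strip` for an arbitrary set `E` of pairs of points, with the
hypothesis on rich strips replaced by a hypothesis on thin sets on which an orientation-reversing
isometry has its graph in `E`.
-/

set_option autoImplicit false

open Finset ComplexConjugate

namespace SepDist12

/-- Distances between first coordinates and between second coordinates of elements of `E` are equal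
if they differ by less than one, and different first coordinates have distance at least one. -/
def PairSep (E : Finset (ℂ × ℂ)) : Prop :=
  (∀ x ∈ E, ∀ y ∈ E, |‖x.1 - y.1‖ - ‖x.2 - y.2‖| < 1 → ‖x.1 - y.1‖ = ‖x.2 - y.2‖) ∧
  ∀ x ∈ E, ∀ y ∈ E, x.1 ≠ y.1 → 1 ≤ ‖y.1 - x.1‖

/-- The elements of `E` which almost agree with the rotation by `a` mapping `p` to `r`. -/
noncomputable def clique (E : Finset (ℂ × ℂ)) (τ : ℝ) (p r a : ℂ) : Finset (ℂ × ℂ) :=
  E.filter fun x => ‖x.2 - r - a * (x.1 - p)‖ < τ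

lemma mem_clique {E : Finset (ℂ × ℂ)} {τ : ℝ} {p r a : ℂ} {x : ℂ × ℂ} :
    x ∈ clique E τ p r a ↔ x ∈ E ∧ ‖x.2 - r - a * (x.1 - p)‖ < τ := by
  unfold clique
  rw [mem_filter]

lemma clique_isometry {E : Finset (ℂ × ℂ)} (hE : PairSep E) {τ : ℝ} (hτ : τ ≤ 1 / 2) {p r a : ℂ}
    (ha : ‖a‖ = 1) {x y : ℂ × ℂ} (hx : x ∈ clique E τ p r a) (hy : y ∈ clique E τ p r a) :
    ‖x.1 - y.1‖ = ‖x.2 - y.2‖ := by
  rw [mem_clique] at hx hy
  refine hE.1 x hx.1 y hy.1 ?_
  have e : x.2 - y.2 = a * (x.1 - y.1) + ((x.2 - r - a * (x.1 - p)) - (y.2 - r - a * (y.1 - p))) := by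
    ring
  have h1 : ‖(x.2 - r - a * (x.1 - p)) - (y.2 - r - a * (y.1 - p))‖ < 1 :=
    lt_of_le_of_lt (norm_sub_le _ _) (by linarith [hx.2, hy.2])
  rw [e, abs_lt]
  have h2 := norm_add_le (a * (x.1 - y.1))
    ((x.2 - r - a * (x.1 - p)) - (y.2 - r - a * (y.1 - p)))
  have h3 := norm_sub_norm_le (a * (x.1 - y.1))
    (-((x.2 - r - a * (x.1 - p)) - (y.2 - r - a * (y.1 - p))))
  rw [sub_neg_eq_add, norm_neg] at h3
  rw [norm_mul, ha, one_mul] at h2 h3
  constructor <;> linarith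

lemma clique_fst_injOn {E : Finset (ℂ × ℂ)} (hE : PairSep E) {τ : ℝ} (hτ : τ ≤ 1 / 2) {p r a : ℂ}
    (ha : ‖a‖ = 1) : Set.InjOn Prod.fst (clique E τ p r a : Set (ℂ × ℂ)) := by
  intro x hx y hy h
  have h1 := clique_isometry hE hτ ha hx hy
  have h' : x.1 = y.1 := h
  rw [h', sub_self, norm_zero] at h1
  exact Prod.ext h' (sub_eq_zero.1 (norm_eq_zero.1 h1.symm))

lemma card_small_cliques_le {E : Finset (ℂ × ℂ)} {D τ : ℝ}
    (hD : ∀ x ∈ E, ∀ y ∈ E, ‖y.1 - x.1‖ ≤ D ∧ ‖y.2 - x.2‖ ≤ D)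
    (hτ : 0 < τ) (hτ2 : τ ≤ 1 / 2) (hD1 : 1 ≤ D) {a : ℂ} (ha : ‖a‖ = 1) (M : ℕ) :
    ((E.filter fun x => (clique E τ x.1 x.2 a).card < M).card : ℝ) ≤
      324 * (D / τ) ^ 2 * M := by
  classical
  rcases E.eq_empty_or_nonempty with rfl | ⟨x0, hx0⟩
  · simp
    positivity
  set F := E.filter fun x => (clique E τ x.1 x.2 a).card < M with hF
  set v0 := x0.2 - a * x0.1 with hv0
  set s := τ / 4 with hs
  have hspos : 0 < s := by positivity
  have hnorm : ∀ x ∈ E, ‖(x.2 - a * x.1) - v0‖ ≤ 2 * D := by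
    intro x hx
    have e : (x.2 - a * x.1) - v0 = (x.2 - x0.2) - a * (x.1 - x0.1) := by rw [hv0]; ring
    rw [e]
    refine (norm_sub_le _ _).trans ?_
    rw [norm_mul, ha, one_mul]
    have := hD x0 hx0 x hx
    linarith [this.1, this.2]
  set T := (Icc (-⌈2 * D / s⌉) ⌈2 * D / s⌉) ×ˢ (Icc (-⌈2 * D / s⌉) ⌈2 * D / s⌉) with hT
  have hceil : 0 ≤ ⌈2 * D / s⌉ := Int.ceil_nonneg (by positivity)
  have hTcard : (T.card : ℤ) = (2 * ⌈2 * D / s⌉ + 1) ^ 2 := by
    rw [hT, card_product, Int.card_Icc]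
    push_cast
    rw [Int.toNat_of_nonneg (by omega)]
    ring
  have hmaps : ∀ x ∈ F, SepDist.cell s v0 (x.2 - a * x.1) ∈ T := by
    intro x hx
    rw [hF, mem_filter] at hx
    exact SepDist.cell_mem hspos (hnorm x hx.1)
  have hcard : F.card ≤ M * T.card := by
    refine card_le_mul_card_image_of_maps_to hmaps M fun c _ => ?_
    by_contra hcon
    push Not at hcon
    obtain ⟨x, hx⟩ : (F.filter fun y => SepDist.cell s v0 (y.2 - a * y.1) = c).Nonempty :=
      card_pos.1 (by omega)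
    rw [mem_filter, hF, mem_filter] at hx
    refine absurd hx.1.2 (not_lt.2 (hcon.le.trans (card_le_card fun y hy => ?_)))
    rw [mem_filter, hF, mem_filter] at hy
    rw [mem_clique]
    refine ⟨hy.1.1, ?_⟩
    have h1 := SepDist.norm_le_of_cell_eq hspos (hy.2.trans hx.2.symm)
    have e : y.2 - x.2 - a * (y.1 - x.1) = (y.2 - a * y.1) - (x.2 - a * x.1) := by ring
    rw [e]
    rw [hs] at h1
    linarith
  have hTR : (T.card : ℝ) ≤ 324 * (D / τ) ^ 2 := by
    have h1 : (T.card : ℝ) = (2 * (⌈2 * D / s⌉ : ℝ) + 1) ^ 2 := by exact_mod_cast hTcard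
    rw [h1]
    have h2 : (⌈2 * D / s⌉ : ℝ) ≤ 2 * D / s + 1 := (Int.ceil_lt_add_one _).le
    have h3 : 2 * D / s = 8 * (D / τ) := by rw [hs]; field_simp; ring
    have h4 : 2 ≤ D / τ := by rw [le_div_iff₀ hτ]; linarith
    have h5 : (0 : ℝ) ≤ ⌈2 * D / s⌉ := by exact_mod_cast hceil
    rw [h3] at h2 h5 ⊢
    nlinarith
  calc (F.card : ℝ) ≤ (M * T.card : ℕ) := by exact_mod_cast hcard
    _ = M * (T.card : ℝ) := by push_cast; ring
    _ ≤ M * (324 * (D / τ) ^ 2) := by gcongr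
    _ = _ := by ring

/-! ### Motions -/

/-- The points at which the graph of `z ↦ b z + c` meets `E`. -/
noncomputable def stab (E : Finset (ℂ × ℂ)) (e : ℂ × ℂ) : Finset ℂ :=
  (E.image Prod.fst).filter fun q => (q, e.1 * q + e.2) ∈ E

lemma mem_stab {E : Finset (ℂ × ℂ)} {e : ℂ × ℂ} {q : ℂ} :
    q ∈ stab E e ↔ (q, e.1 * q + e.2) ∈ E := by
  unfold stab
  rw [mem_filter]
  exact ⟨fun h => h.2, fun h => ⟨mem_image.2 ⟨_, h, rfl⟩, h⟩⟩

/-- The proper motions with at least `j` coincidences. -/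
noncomputable def motions (E : Finset (ℂ × ℂ)) (j : ℕ) : Finset (ℂ × ℂ) :=
  ((E ×ˢ E).image fun x =>
    ((x.2.2 - x.1.2) / (x.2.1 - x.1.1), x.1.2 - (x.2.2 - x.1.2) / (x.2.1 - x.1.1) * x.1.1)).filter
    fun e => ‖e.1‖ = 1 ∧ j ≤ (stab E e).card

lemma mem_motions {E : Finset (ℂ × ℂ)} {j : ℕ} (hj : 2 ≤ j) {e : ℂ × ℂ} :
    e ∈ motions E j ↔ ‖e.1‖ = 1 ∧ j ≤ (stab E e).card := by
  unfold motions
  rw [mem_filter, mem_image]
  refine ⟨fun h => h.2, fun h => ⟨?_, h⟩⟩
  obtain ⟨p, hp, q, hq, hne⟩ := one_lt_card.1 (lt_of_lt_of_le (by omega) h.2)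
  rw [mem_stab] at hp hq
  refine ⟨((p, e.1 * p + e.2), (q, e.1 * q + e.2)), ?_, ?_⟩
  · simp only [mem_product]
    exact ⟨hp, hq⟩
  · have h1 : q - p ≠ 0 := sub_ne_zero.2 (Ne.symm hne)
    have h2 : (e.1 * q + e.2 - (e.1 * p + e.2)) / (q - p) = e.1 := by
      rw [div_eq_iff h1]; ring
    simp only [h2]
    ext <;> simp

/-- Motions together with a point at which their graph meets `E`. -/
noncomputable def flags (E : Finset (ℂ × ℂ)) (j : ℕ) : Finset ((ℂ × ℂ) × ℂ) :=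
  (motions E j ×ˢ (E.image Prod.fst)).filter fun x => (x.2, x.1.1 * x.2 + x.1.2) ∈ E

lemma mem_flags {E : Finset (ℂ × ℂ)} {j : ℕ} (hj : 2 ≤ j) {x : (ℂ × ℂ) × ℂ} :
    x ∈ flags E j ↔ (‖x.1.1‖ = 1 ∧ j ≤ (stab E x.1).card) ∧ (x.2, x.1.1 * x.2 + x.1.2) ∈ E := by
  unfold flags
  rw [mem_filter, mem_product, mem_motions hj]
  exact ⟨fun h => ⟨h.1.1, h.2⟩, fun h => ⟨⟨h.1, mem_image.2 ⟨_, h.2, rfl⟩⟩, h.2⟩⟩

lemma sum_flags {E : Finset (ℂ × ℂ)} {j : ℕ} (f : (ℂ × ℂ) × ℂ → ℝ) :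
    ∑ x ∈ flags E j, f x = ∑ e ∈ motions E j, ∑ p ∈ stab E e, f (e, p) := by
  unfold flags stab
  rw [sum_filter, sum_product]
  refine sum_congr rfl fun e _ => ?_
  rw [sum_filter]

/-- Cliques with more than `t` elements come from exact proper motions. -/
def Rigid (E : Finset (ℂ × ℂ)) (τ : ℝ) (t : ℕ) : Prop :=
  ∀ p r : ℂ, (p, r) ∈ E → ∀ a : ℂ, ‖a‖ = 1 → t < (clique E τ p r a).card →
    ∃ b : ℂ, ‖b‖ = 1 ∧ ∀ x ∈ clique E τ p r a, x.2 - r = b * (x.1 - p)

/-- Thin subsets of graphs of orientation-reversing isometries in `E` are collinear or have at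
most `t` points. -/
def FewMirrored (E : Finset (ℂ × ℂ)) (τ : ℝ) (t : ℕ) : Prop :=
  ∀ p r : ℂ, (p, r) ∈ E → ∀ l : ℂ, ‖l‖ = 1 → ∀ g : ℂ, ‖g‖ = 1 → ∀ X : Finset ℂ, p ∈ X →
    (∀ z ∈ X, (z, r + l * conj (z - p)) ∈ E) → (∀ z ∈ X, |(conj g * (z - p)).im| < τ / 2) →
      Collinear ℝ (X : Set ℂ) ∨ X.card ≤ t

/-- A clique is a proper motion, or it is contained in a strip of width `τ` and it is induced by
an orientation-reversing isometry. -/
theorem clique_alternative {E : Finset (ℂ × ℂ)} (hE : PairSep E) {τ : ℝ}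
    (hτ : τ ≤ 1 / 2) {p r a : ℂ} (ha : ‖a‖ = 1) (hp : (p, r) ∈ clique E τ p r a) :
    (∃ b : ℂ, ‖b‖ = 1 ∧ ∀ x ∈ clique E τ p r a, x.2 - r = b * (x.1 - p)) ∨
    ∃ l : ℂ, ‖l‖ = 1 ∧ ∃ g : ℂ, ‖g‖ = 1 ∧ ∀ x ∈ clique E τ p r a,
      x.2 - r = l * conj (x.1 - p) ∧ |(conj g * (x.1 - p)).im| < τ / 2 := by
  classical
  -- the rotation of a pair
  have hrot : ∀ x ∈ clique E τ p r a, x.1 - p ≠ 0 → ‖(x.2 - r) / (x.1 - p)‖ = 1 ∧
      x.2 - r = (x.2 - r) / (x.1 - p) * (x.1 - p) := by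
    intro x hx hne
    refine ⟨?_, (div_mul_cancel₀ _ hne).symm⟩
    have := clique_isometry hE hτ ha hx hp
    rw [norm_div, ← this, div_self (norm_ne_zero_iff.2 hne)]
  by_cases hnon : ∃ x ∈ clique E τ p r a, x.1 - p ≠ 0
  swap
  · left
    push Not at hnon
    refine ⟨1, norm_one, fun x hx => ?_⟩
    have h1 := clique_isometry hE hτ ha hx hp
    have h2 := hnon x hx
    simp only at h1
    rw [h2, norm_zero] at h1
    rw [h2, mul_zero]
    exact norm_eq_zero.1 h1.symm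
  obtain ⟨x0, hx0, hne0⟩ := hnon
  by_cases hall : ∀ x ∈ clique E τ p r a, x.1 - p ≠ 0 →
      (x.2 - r) / (x.1 - p) = (x0.2 - r) / (x0.1 - p)
  · left
    refine ⟨(x0.2 - r) / (x0.1 - p), (hrot x0 hx0 hne0).1, fun x hx => ?_⟩
    by_cases hx1 : x.1 - p = 0
    · have := clique_isometry hE hτ ha hx hp
      simp only at this
      rw [hx1, norm_zero] at this
      rw [hx1, mul_zero]
      exact norm_eq_zero.1 this.symm
    · rw [← hall x hx hx1]
      exact (hrot x hx hx1).2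
  · right
    push Not at hall
    obtain ⟨y, hy, hy1, hyne⟩ := hall
    set u := x0.1 - p with hu
    set v := y.1 - p with hv
    set b := (x0.2 - r) / u with hb
    set c := (y.2 - r) / v with hc
    obtain ⟨hbn, hbu⟩ := hrot x0 hx0 hne0
    obtain ⟨hcn, hcv⟩ := hrot y hy hy1
    rw [← hu, ← hb] at hbn hbu
    rw [← hv, ← hc] at hcn hcv
    -- for all pairs of nontrivial elements of the clique
    have hpair : ∀ x ∈ clique E τ p r a, ∀ y ∈ clique E τ p r a, x.1 - p ≠ 0 → y.1 - p ≠ 0 →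
        (x.2 - r) / (x.1 - p) = (y.2 - r) / (y.1 - p) ∨
        (x.2 - r) / (x.1 - p) * (x.1 - p) * conj (y.1 - p) =
          (y.2 - r) / (y.1 - p) * (y.1 - p) * conj (x.1 - p) := by
      intro x hx y hy hx1 hy1
      refine SepDist.rot_or_refl (hrot x hx hx1).1 (hrot y hy hy1).1 hx1 hy1 ?_
      rw [← (hrot x hx hx1).2, ← (hrot y hy hy1).2, sub_sub_sub_cancel_right,
        sub_sub_sub_cancel_right]
      exact clique_isometry hE hτ ha hx hy
    have hcu : conj u ≠ 0 := (map_ne_zero _).2 hne0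
    have hcv' : conj v ≠ 0 := (map_ne_zero _).2 hy1
    set l := b * u / conj u with hl
    have hln : ‖l‖ = 1 := by
      rw [hl, norm_div, norm_mul, hbn, one_mul, RCLike.norm_conj,
        div_self (norm_ne_zero_iff.2 hne0)]
    have hlv : l = c * v / conj v := by
      rcases hpair x0 hx0 y hy hne0 hy1 with h | h
      · exact absurd h.symm hyne
      · rw [hl, div_eq_div_iff hcu hcv']
        exact h
    -- every element of the clique is reflected
    have hall : ∀ x ∈ clique E τ p r a, x.2 - r = l * conj (x.1 - p) := by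
      intro x hx
      by_cases hx1 : x.1 - p = 0
      · have := clique_isometry hE hτ ha hx hp
        simp only at this
        rw [hx1, norm_zero] at this
        rw [hx1, map_zero, mul_zero]
        exact norm_eq_zero.1 this.symm
      · have hs := (hrot x hx hx1).2
        set s := x.1 - p with hs'
        set d := (x.2 - r) / s with hd
        have hfin : ∀ {b' u' : ℂ}, conj u' ≠ 0 → l = b' * u' / conj u' →
            b' * u' * conj s = d * s * conj u' → x.2 - r = l * conj s := by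
          intro b' u' hu' hl' h
          refine hs.trans (Eq.symm ?_)
          rw [hl', div_mul_eq_mul_div, div_eq_iff hu']
          exact h
        rcases hpair x0 hx0 x hx hne0 hx1 with h | h
        · rcases hpair y hy x hx hy1 hx1 with h' | h'
          · exact absurd (h'.trans h.symm) hyne
          · exact hfin hcv' hlv h'
        · exact hfin hcu hl h
    obtain ⟨g, hg, hgs⟩ := SepDist.exists_dir hln ha
    refine ⟨l, hln, g, hg, fun x hx => ⟨hall x hx, ?_⟩⟩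
    have h1 := hgs (x.1 - p)
    rw [← hall x hx] at h1
    rw [mem_clique] at hx
    linarith [hx.2]

/-- Large cliques come from exact proper motions. -/
theorem rigid_of_fewMirrored {E : Finset (ℂ × ℂ)} (hE : PairSep E) {τ : ℝ}
    (hτ0 : 0 < τ) (hτ : τ ≤ 1 / 2) {t : ℕ} (ht1 : 1 ≤ t) (ht : FewMirrored E τ t) :
    Rigid E τ t := by
  classical
  intro p r hpr0 a ha hlarge
  have hpr : (p, r) ∈ clique E τ p r a := by
    rw [mem_clique]
    refine ⟨hpr0, ?_⟩
    simp only [sub_self, mul_zero, norm_zero]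
    exact hτ0
  rcases clique_alternative hE hτ ha hpr with h | ⟨l, hl, g, hg, h⟩
  · exact h
  have hcard : ((clique E τ p r a).image Prod.fst).card = (clique E τ p r a).card :=
    card_image_of_injOn (clique_fst_injOn hE hτ ha)
  have h12 : p ∈ (clique E τ p r a).image Prod.fst := mem_image.2 ⟨(p, r), hpr, rfl⟩
  have h13 : ∀ z ∈ (clique E τ p r a).image Prod.fst, (z, r + l * conj (z - p)) ∈ E := by
    intro z hz
    obtain ⟨x, hx, rfl⟩ := mem_image.1 hz
    have h2 := (h x hx).1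
    have h3 : r + l * conj (x.1 - p) = x.2 := by rw [← h2]; ring
    rw [h3]
    exact (mem_clique.1 hx).1
  have h14 : ∀ z ∈ (clique E τ p r a).image Prod.fst, |(conj g * (z - p)).im| < τ / 2 := by
    intro z hz
    obtain ⟨x, hx, rfl⟩ := mem_image.1 hz
    exact (h x hx).2
  rcases ht p r hpr0 l hl g hg _ h12 h13 h14 with h1 | h1
  · -- a collinear clique is a proper motion
    obtain ⟨x0, hx0, hx0p⟩ := exists_mem_ne (s := clique E τ p r a) (by omega) (p, r)
    have hne0 : x0.1 - p ≠ 0 := by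
      intro h0
      apply hx0p
      have h2 := (h x0 hx0).1
      rw [h0, map_zero, mul_zero] at h2
      exact Prod.ext (sub_eq_zero.1 h0) (sub_eq_zero.1 h2)
    rw [collinear_iff_of_mem (p₀ := p) (mem_coe.2 h12)] at h1
    obtain ⟨v, hv⟩ := h1
    obtain ⟨k0, hk0⟩ := hv x0.1 (mem_coe.2 (mem_image.2 ⟨x0, hx0, rfl⟩))
    have hk0' : x0.1 - p = k0 • v := by
      rw [hk0]; simp
    have hv0 : v ≠ 0 := by
      rintro rfl
      rw [smul_zero] at hk0'
      exact hne0 hk0'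
    refine ⟨l * conj v / v, ?_, fun x hx => ?_⟩
    · rw [norm_div, norm_mul, hl, one_mul, RCLike.norm_conj, div_self (norm_ne_zero_iff.2 hv0)]
    · obtain ⟨k, hk⟩ := hv x.1 (mem_coe.2 (mem_image.2 ⟨x, hx, rfl⟩))
      have hk' : x.1 - p = k • v := by
        rw [hk]; simp
      rw [(h x hx).1, hk', Complex.real_smul, map_mul, Complex.conj_ofReal]
      field_simp
  · omega

/-- A large clique gives a motion close to the rotation. -/
lemma exists_flag {E : Finset (ℂ × ℂ)} (hE : PairSep E) {τ : ℝ} (hτ0 : 0 < τ) (hτ : τ ≤ 1 / 2)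
    {t : ℕ} (ht1 : 1 ≤ t) (ht : Rigid E τ t) {m : ℕ} (htm : t + 1 ≤ m) {p r a : ℂ}
    (hp : (p, r) ∈ E) (ha : ‖a‖ = 1) (hlarge : m ≤ (clique E τ p r a).card) :
    ∃ x ∈ flags E (t + 1), (x.2 = p ∧ x.1.1 * x.2 + x.1.2 = r) ∧
      ‖a - x.1.1‖ ≤ τ * (SepDist.nn (stab E x.1) m x.2)⁻¹ := by
  classical
  obtain ⟨b, hb, hbx⟩ := ht p r hp a ha (by omega)
  set e : ℂ × ℂ := (b, r - b * p) with he
  have hmove : ∀ x ∈ clique E τ p r a, e.1 * x.1 + e.2 = x.2 := by
    intro x hx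
    have := hbx x hx
    rw [he]
    simp only
    linear_combination -this
  -- the domain of the clique is contained in `stab`
  have hsub : ∀ x ∈ clique E τ p r a, x.1 ∈ stab E e := by
    intro x hx
    rw [mem_stab, hmove x hx]
    exact (mem_clique.1 hx).1
  have hcard : m ≤ (stab E e).card := by
    refine hlarge.trans ?_
    rw [← card_image_of_injOn (clique_fst_injOn hE hτ ha (p := p) (r := r))]
    refine card_le_card fun z hz => ?_
    rw [mem_image] at hz
    obtain ⟨x, hx, rfl⟩ := hz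
    exact hsub x hx
  refine ⟨(e, p), ?_, ⟨rfl, ?_⟩, ?_⟩
  · rw [mem_flags (by omega)]
    refine ⟨⟨hb, htm.trans hcard⟩, ?_⟩
    have : e.1 * p + e.2 = r := by rw [he]; ring
    simp only [this]
    exact hp
  · simp only [he]; ring
  · simp only
    have hpos : 0 < SepDist.nn (stab E e) m p := SepDist.nn_pos (by omega) hcard
    rw [← div_eq_mul_inv, le_div_iff₀ hpos]
    by_cases hab : a = b
    · rw [he]
      simp only
      rw [hab, sub_self, norm_zero, zero_mul]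
      exact hτ0.le
    · have hab' : 0 < ‖a - b‖ := norm_pos_iff.2 (sub_ne_zero.2 hab)
      have hnn : SepDist.nn (stab E e) m p ≤ τ / ‖a - b‖ := by
        refine SepDist.nn_le (by positivity) (hlarge.trans ?_)
        unfold SepDist.cnt
        rw [← card_image_of_injOn (clique_fst_injOn hE hτ ha (p := p) (r := r))]
        refine card_le_card fun z hz => ?_
        rw [mem_image] at hz
        obtain ⟨x, hx, rfl⟩ := hz
        rw [mem_filter]
        refine ⟨hsub x hx, ?_⟩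
        rw [le_div_iff₀ hab']
        have h1 := (mem_clique.1 hx).2
        rw [hbx x hx, ← sub_mul, norm_mul, norm_sub_rev b a, mul_comm] at h1
        exact h1.le
      rw [le_div_iff₀ hab', mul_comm] at hnn
      exact hnn

/-- **Disjointness of the arcs.** -/
lemma flags_disjoint {E : Finset (ℂ × ℂ)} {τ : ℝ} (hτ0 : 0 < τ) {t : ℕ} (ht1 : 1 ≤ t)
    (ht : Rigid E τ t) {x y : (ℂ × ℂ) × ℂ}
    (hx : x ∈ flags E (t + 1)) (hy : y ∈ flags E (t + 1)) (hxy : x.2 = y.2)
    (hxy' : x.1.1 * x.2 + x.1.2 = y.1.1 * y.2 + y.1.2)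
    (hlt : ‖x.1.1 - y.1.1‖ * SepDist.nn (stab E x.1) (t + 1) x.2 < τ) : x = y := by
  classical
  rw [mem_flags (by omega)] at hx hy
  obtain ⟨⟨hx1, hx2⟩, hx3⟩ := hx
  obtain ⟨⟨hy1, hy2⟩, hy3⟩ := hy
  obtain ⟨⟨b, c⟩, p⟩ := x
  obtain ⟨⟨b', c'⟩, p'⟩ := y
  simp only at hx1 hx2 hx3 hy1 hy2 hy3 hxy hxy' hlt
  subst hxy
  set r := b * p + c with hr
  -- the clique for the rotation `b'`
  have hin1 : ∀ q ∈ stab E (b', c'), (q, b' * q + c') ∈ clique E τ p r b' := by
    intro q hq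
    rw [mem_stab] at hq
    rw [mem_clique]
    refine ⟨hq, ?_⟩
    have : b' * q + c' - r - b' * (q - p) = 0 := by rw [hxy']; ring
    simp only [this, norm_zero]
    exact hτ0
  have hin2 : ∀ q ∈ stab E (b, c), ‖q - p‖ ≤ SepDist.nn (stab E (b, c)) (t + 1) p →
      (q, b * q + c) ∈ clique E τ p r b' := by
    intro q hq hq'
    rw [mem_stab] at hq
    rw [mem_clique]
    refine ⟨hq, ?_⟩
    have : b * q + c - r - b' * (q - p) = (b - b') * (q - p) := by rw [hr]; ring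
    simp only [this, norm_mul]
    refine lt_of_le_of_lt ?_ hlt
    gcongr
  have hlarge : t < (clique E τ p r b').card := by
    have h1 : (stab E (b', c')).card ≤ (clique E τ p r b').card := by
      refine card_le_card_of_injOn (fun q => (q, b' * q + c')) (fun q hq => hin1 q hq) ?_
      intro q _ q' _ h
      exact congrArg Prod.fst h
    omega
  obtain ⟨d, -, hd⟩ := ht _ _ hx3 _ hy1 hlarge
  have h1 : b' = d := by
    obtain ⟨q, hq, hqp⟩ := exists_mem_ne (lt_of_lt_of_le (by omega) hy2) p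
    have h2 := hd _ (hin1 q hq)
    simp only at h2
    have h3 : q - p ≠ 0 := sub_ne_zero.2 hqp
    refine mul_right_cancel₀ h3 ?_
    rw [← h2, hxy']; ring
  have h2 : b = d := by
    have hc : t + 1 ≤ SepDist.cnt (stab E (b, c)) p (SepDist.nn (stab E (b, c)) (t + 1) p) :=
      SepDist.le_cnt_nn p hx2
    unfold SepDist.cnt at hc
    obtain ⟨q, hq, hqp⟩ := exists_mem_ne (lt_of_lt_of_le (by omega) hc) p
    rw [mem_filter] at hq
    have h2 := hd _ (hin2 q hq.1 hq.2)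
    simp only at h2
    have h3 : q - p ≠ 0 := sub_ne_zero.2 hqp
    refine mul_right_cancel₀ h3 ?_
    rw [← h2, hr]; ring
  have hbb : b = b' := h2.trans h1.symm
  subst hbb
  have hcc : c = c' := by
    rw [hr] at hxy'
    exact add_left_cancel hxy'
  rw [hcc]

lemma one_le_nn {E : Finset (ℂ × ℂ)} (hE : PairSep E) {e : ℂ × ℂ} {p : ℂ}
    (hp : p ∈ stab E e) {k : ℕ} (hk : 2 ≤ k) (hkS : k ≤ (stab E e).card) :
    1 ≤ SepDist.nn (stab E e) k p := by
  by_contra hlt
  push Not at hlt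
  have h1 := SepDist.le_cnt_nn p hkS
  unfold SepDist.cnt at h1
  obtain ⟨q, hq, hqp⟩ := exists_mem_ne (lt_of_lt_of_le (by omega) h1) p
  rw [mem_filter] at hq
  have h2 := hE.2 _ (mem_stab.1 hp) _ (mem_stab.1 hq.1) (Ne.symm hqp)
  simp only at h2
  linarith [hq.2]

/-- The core estimate. -/
theorem core {E : Finset (ℂ × ℂ)} (hE : PairSep E) {D τ : ℝ}
    (hD : ∀ x ∈ E, ∀ y ∈ E, ‖y.1 - x.1‖ ≤ D ∧ ‖y.2 - x.2‖ ≤ D)
    (hτ0 : 0 < τ) (hτ : τ ≤ 1 / 2) (hD1 : 1 ≤ D) (hne : E.Nonempty) {t : ℕ} (ht1 : 1 ≤ t)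
    (ht : Rigid E τ t) {m : ℕ} (htm : t + 1 ≤ m)
    (hm : 648 * (D / τ) ^ 2 * m ≤ (E.card : ℝ)) :
    (m : ℝ) ≤ 400000000 * ((t + 1 : ℕ) : ℝ) := by
  classical
  set n : ℝ := (E.card : ℝ) with hn
  have hnpos : 0 < n := by
    rw [hn]
    exact_mod_cast card_pos.2 hne
  set j := t + 1 with hj
  have hj2 : 2 ≤ j := by omega
  -- upper bound
  have hflag : ∀ x ∈ flags E j, ‖x.1.1‖ = 1 := fun x hx => ((mem_flags hj2).1 hx).1.1
  have h1 : 2 * (n / 2) ≤ 3 * ∑ x ∈ flags E j, τ * (SepDist.nn (stab E x.1) m x.2)⁻¹ := by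
    refine SepDist.sum_radius_ge (flags E j) (fun x => x.1.1) _ hflag
      (fun x _ => mul_nonneg hτ0.le (inv_nonneg.2 (SepDist.nn_nonneg _ _ _))) (by positivity)
      fun φ => ?_
    have hbad := card_small_cliques_le hD hτ0 hτ hD1 (SepDist.norm_ex φ) m
    have hgood : n / 2 ≤
        ((E.filter fun x => ¬ (clique E τ x.1 x.2 (SepDist.ex φ)).card < m).card : ℝ) := by
      have hsplit := card_filter_add_card_filter_not (s := E)
        (fun x => (clique E τ x.1 x.2 (SepDist.ex φ)).card < m)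
      have hsplit' : ((E.filter fun x => (clique E τ x.1 x.2 (SepDist.ex φ)).card < m).card : ℝ) +
          ((E.filter fun x => ¬ (clique E τ x.1 x.2 (SepDist.ex φ)).card < m).card : ℝ) =
          n := by
        rw [hn, ← Nat.cast_add, hsplit]
      linarith
    refine hgood.trans ?_
    have hcard : (E.filter fun x => ¬ (clique E τ x.1 x.2 (SepDist.ex φ)).card < m).card ≤
        ((flags E j).filter fun x =>
          ‖SepDist.ex φ - x.1.1‖ ≤ τ * (SepDist.nn (stab E x.1) m x.2)⁻¹).card := by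
      refine card_le_card_of_surjOn (fun x => (x.2, x.1.1 * x.2 + x.1.2)) ?_
      rintro ⟨p, r⟩ hpr
      rw [mem_coe, mem_filter, not_lt] at hpr
      obtain ⟨x, hx, hx2, hx3⟩ := exists_flag hE hτ0 hτ ht1 ht htm hpr.1
        (SepDist.norm_ex φ) hpr.2
      refine ⟨x, ?_, ?_⟩
      · rw [mem_coe, mem_filter]
        exact ⟨hx, hx3⟩
      · simp only
        rw [hx2.2, hx2.1]
    exact_mod_cast hcard
  -- lower bound
  have h2 : ∑ x ∈ flags E j, τ / 2 * (SepDist.nn (stab E x.1) j x.2)⁻¹ ≤ 2 * Real.pi * n := by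
    have hone : ∀ x ∈ flags E j, 1 ≤ SepDist.nn (stab E x.1) j x.2 := by
      intro x hx
      rw [mem_flags hj2] at hx
      exact one_le_nn hE (mem_stab.2 hx.2) hj2 hx.1.2
    refine SepDist.sum_radius_le (flags E j) (fun x => x.1.1) _ hflag
      (fun x _ => mul_nonneg (by positivity) (inv_nonneg.2 (SepDist.nn_nonneg _ _ _))) ?_
      (by positivity) fun φ => ?_
    · intro x hx
      have h3 := inv_le_one_of_one_le₀ (hone x hx)
      have h4 : 0 ≤ (SepDist.nn (stab E x.1) j x.2)⁻¹ := inv_nonneg.2 (SepDist.nn_nonneg _ _ _)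
      nlinarith
    · have hcard : ((flags E j).filter fun x =>
          ‖SepDist.ex φ - x.1.1‖ < τ / 2 * (SepDist.nn (stab E x.1) j x.2)⁻¹).card ≤ E.card := by
        refine card_le_card_of_injOn (fun x => (x.2, x.1.1 * x.2 + x.1.2)) ?_ ?_
        · intro x hx
          rw [mem_coe, mem_filter, mem_flags hj2] at hx
          rw [mem_coe]
          exact hx.1.2
        · intro x hx y hy hxy
          rw [mem_coe, mem_filter] at hx hy
          simp only [Prod.mk.injEq] at hxy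
          have hFx := hone x hx.1
          have hFy := hone y hy.1
          have hd : ‖x.1.1 - y.1.1‖ < τ / 2 * (SepDist.nn (stab E x.1) j x.2)⁻¹ +
              τ / 2 * (SepDist.nn (stab E y.1) j y.2)⁻¹ := by
            have e : x.1.1 - y.1.1 = (SepDist.ex φ - y.1.1) - (SepDist.ex φ - x.1.1) := by ring
            rw [e]
            refine lt_of_le_of_lt (norm_sub_le _ _) ?_
            linarith [hx.2, hy.2]
          set F := SepDist.nn (stab E x.1) j x.2
          set G := SepDist.nn (stab E y.1) j y.2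
          rcases le_total F G with hFG | hFG
          · refine flags_disjoint hτ0 ht1 ht hx.1 hy.1 hxy.1 hxy.2 ?_
            have h3 : G⁻¹ ≤ F⁻¹ := inv_anti₀ (by linarith) hFG
            have h4 : ‖x.1.1 - y.1.1‖ < τ * F⁻¹ := by nlinarith
            rwa [← div_eq_mul_inv, lt_div_iff₀ (by linarith)] at h4
          · refine (flags_disjoint hτ0 ht1 ht hy.1 hx.1 hxy.1.symm hxy.2.symm ?_).symm
            have h3 : F⁻¹ ≤ G⁻¹ := inv_anti₀ (by linarith) hFG
            have h4 : ‖y.1.1 - x.1.1‖ < τ * G⁻¹ := by rw [norm_sub_rev]; nlinarith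
            rwa [← div_eq_mul_inv, lt_div_iff₀ (by linarith)] at h4
      have : (((flags E j).filter fun x =>
          ‖SepDist.ex φ - x.1.1‖ < τ / 2 * (SepDist.nn (stab E x.1) j x.2)⁻¹).card : ℝ) ≤
          (E.card : ℝ) := by exact_mod_cast hcard
      exact this
  -- the packing lemma
  set P := ∑ x ∈ flags E j, (SepDist.nn (stab E x.1) m x.2)⁻¹ with hP
  set Q := ∑ x ∈ flags E j, (SepDist.nn (stab E x.1) j x.2)⁻¹ with hQ
  have h3 : P ≤ 512 * Real.sqrt (j / m) * Q := by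
    rw [hP, hQ, sum_flags (fun x => (SepDist.nn (stab E x.1) m x.2)⁻¹),
      sum_flags (fun x => (SepDist.nn (stab E x.1) j x.2)⁻¹), mul_sum]
    exact sum_le_sum fun e _ => SepDist.sum_inv_nn_le (stab E e) hj2 htm
  rw [← mul_sum, ← hP] at h1
  rw [← mul_sum, ← hQ] at h2
  have hmpos : 0 < (m : ℝ) := by
    have : 0 < m := by omega
    exact_mod_cast this
  have hjpos : 0 < (j : ℝ) := by
    have : 0 < j := by omega
    exact_mod_cast this
  set s := Real.sqrt (j / m) with hs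
  have hspos : 0 < s := Real.sqrt_pos.2 (div_pos hjpos hmpos)
  have hs2 : s ^ 2 = j / m := Real.sq_sqrt (div_nonneg hjpos.le hmpos.le)
  have hpi := Real.pi_lt_d2
  have hpi0 := Real.pi_pos
  have h4 : n ≤ 1536 * s * (τ * Q) := by nlinarith
  have h5 : τ * Q ≤ 4 * Real.pi * n := by linarith
  have h6 : n ≤ 20000 * s * n := by
    calc n ≤ 1536 * s * (τ * Q) := h4
      _ ≤ 1536 * s * (4 * Real.pi * n) := by gcongr
      _ = (6144 * Real.pi) * (s * n) := by ring
      _ ≤ 20000 * (s * n) := by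
          apply mul_le_mul_of_nonneg_right _ (by positivity)
          linarith
      _ = _ := by ring
  have h7 : 1 ≤ 20000 * s := by
    by_contra hcon
    push Not at hcon
    nlinarith
  have h8 : 1 ≤ 400000000 * s ^ 2 := by nlinarith
  rw [hs2, mul_div_assoc', le_div_iff₀ hmpos] at h8
  linarith

/-- **Main estimate.** A large set of pairs contains a large part of the graph of an
orientation-reversing isometry over a non-collinear thin set. -/
theorem exists_mirrored {E : Finset (ℂ × ℂ)} (hE : PairSep E) {s δ : ℝ}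
    (hD : ∀ x ∈ E, ∀ y ∈ E, ‖y.1 - x.1‖ ≤ s ∧ ‖y.2 - x.2‖ ≤ s)
    (h0 : 0 < δ) (h1 : δ ≤ 1 / 2) (hs : 1 ≤ s) (hbig : s ^ 2 ≤ 1 / 10 ^ 13 * δ ^ 2 * E.card) :
    ∃ p r l u : ℂ, ‖l‖ = 1 ∧ ‖u‖ = 1 ∧ ∃ X : Finset ℂ, p ∈ X ∧ ¬ Collinear ℝ (X : Set ℂ) ∧
      (∀ z ∈ X, (z, r + l * conj (z - p)) ∈ E ∧ |inner ℝ u (z - p)| < δ / 2) ∧
      1 / 10 ^ 13 * δ ^ 2 * E.card / s ^ 2 ≤ (X.card : ℝ) := by
  classical
  by_contra hcon
  push Not at hcon
  set n : ℝ := (E.card : ℝ) with hn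
  have hs2 : 0 < s ^ 2 := by positivity
  have hnpos : 0 < n := by
    by_contra h
    have h2 : 1 / 10 ^ 13 * δ ^ 2 * n ≤ 0 :=
      mul_nonpos_of_nonneg_of_nonpos (by positivity) (not_lt.1 h)
    linarith
  have hEne : E.Nonempty := by
    rw [Finset.nonempty_iff_ne_empty]
    rintro rfl
    simp [hn] at hnpos
  set Y : ℝ := 1 / 10 ^ 13 * δ ^ 2 * n / s ^ 2 with hY
  have hY1 : 1 ≤ Y := by
    rw [hY, one_le_div hs2]
    exact hbig
  set t : ℕ := max 1 (⌈Y⌉₊ - 1) with ht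
  have ht1 : 1 ≤ t := le_max_left _ _
  have htY : (t : ℝ) ≤ Y := by
    rcases max_choice 1 (⌈Y⌉₊ - 1) with h | h
    · rw [ht, h]
      exact_mod_cast hY1
    · rw [ht, h]
      have h2 : ⌈Y⌉₊ - 1 < ⌈Y⌉₊ := by
        have : 0 < ⌈Y⌉₊ := Nat.ceil_pos.2 (by linarith)
        omega
      exact (Nat.lt_ceil.1 h2).le
  have hfew : FewMirrored E δ t := by
    intro p r _ l hl g hg X hpX h2 h3
    by_cases hcol : Collinear ℝ (X : Set ℂ)
    · exact Or.inl hcol
    · right
      have h4 := hcon p r l (Complex.I * g) hl (by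
        rw [norm_mul, Complex.norm_I, one_mul, hg]) X hpX hcol (fun z hz => ⟨h2 z hz, by
          have e : inner ℝ (Complex.I * g) (z - p) = (conj g * (z - p)).im := by
            rw [Complex.inner]
            simp only [map_mul, Complex.conj_I, Complex.mul_re, Complex.mul_im, Complex.neg_re,
              Complex.neg_im, Complex.I_re, Complex.I_im, Complex.conj_re, Complex.conj_im]
            ring
          rw [e]
          exact h3 z hz⟩)
      have h5 := Nat.lt_ceil.2 h4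
      refine le_trans ?_ (le_max_right _ _)
      omega
  have hrigid : Rigid E δ t := rigid_of_fewMirrored hE h0 h1 ht1 hfew
  -- the core estimate
  set X : ℝ := δ ^ 2 * n / s ^ 2 / 648 with hX
  have hXY : X = 10 ^ 13 / 648 * Y := by rw [hY, hX]; ring
  set m := ⌊X⌋₊ with hm
  have hXpos : 0 ≤ X := by positivity
  have hmX : (m : ℝ) ≤ X := Nat.floor_le hXpos
  have hXm : X < m + 1 := Nat.lt_floor_add_one X
  have hmt : t + 1 ≤ m := by
    have h2 : (t : ℝ) + 1 < m + 1 := by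
      have h3 : (t : ℝ) + 1 ≤ 2 * Y := by linarith
      have h4 : 2 * Y < X := by rw [hXY]; linarith
      linarith
    have h3 : (t : ℝ) < m := by linarith
    have h4 : t < m := by exact_mod_cast h3
    omega
  have hm648 : 648 * (s / δ) ^ 2 * m ≤ n := by
    calc 648 * (s / δ) ^ 2 * m ≤ 648 * (s / δ) ^ 2 * X := by gcongr
      _ = n := by
          rw [hX]
          have hs0 : s ≠ 0 := by linarith
          field_simp
  have h3 := core hE hD h0 h1 hs hEne ht1 hrigid hmt hm648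
  push_cast at h3
  have h5 : (m : ℝ) ≤ 800000000 * Y := by linarith
  have h6 : X ≤ 800000001 * Y := by linarith
  rw [hXY] at h6
  linarith

/-- The same for proper isometries. -/
theorem exists_moved {E : Finset (ℂ × ℂ)} (hE : PairSep E) {s δ : ℝ}
    (hD : ∀ x ∈ E, ∀ y ∈ E, ‖y.1 - x.1‖ ≤ s ∧ ‖y.2 - x.2‖ ≤ s)
    (h0 : 0 < δ) (h1 : δ ≤ 1 / 2) (hs : 1 ≤ s) (hbig : s ^ 2 ≤ 1 / 10 ^ 13 * δ ^ 2 * E.card) :
    ∃ p r l u : ℂ, ‖l‖ = 1 ∧ ‖u‖ = 1 ∧ ∃ X : Finset ℂ, p ∈ X ∧ ¬ Collinear ℝ (X : Set ℂ) ∧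
      (∀ z ∈ X, (z, r + l * (z - p)) ∈ E ∧ |inner ℝ u (z - p)| < δ / 2) ∧
      1 / 10 ^ 13 * δ ^ 2 * E.card / s ^ 2 ≤ (X.card : ℝ) := by
  classical
  set f : ℂ × ℂ → ℂ × ℂ := fun x => (x.1, conj x.2) with hf
  have hfinj : Function.Injective f := by
    intro x y h
    rw [hf] at h
    simp only [Prod.mk.injEq] at h
    exact Prod.ext h.1 (star_injective h.2)
  have hmem : ∀ x, x ∈ E.image f → ∃ y ∈ E, x.1 = y.1 ∧ x.2 = conj y.2 := by
    intro x hx
    obtain ⟨y, hy, rfl⟩ := mem_image.1 hx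
    exact ⟨y, hy, rfl, rfl⟩
  have hconj : ∀ a b : ℂ, ‖conj a - conj b‖ = ‖a - b‖ := fun a b => by
    rw [← map_sub, RCLike.norm_conj]
  have hE' : PairSep (E.image f) := by
    refine ⟨fun x hx y hy h => ?_, fun x hx y hy h => ?_⟩
    · obtain ⟨x', hx', hx1, hx2⟩ := hmem x hx
      obtain ⟨y', hy', hy1, hy2⟩ := hmem y hy
      rw [hx1, hx2, hy1, hy2, hconj] at h ⊢
      exact hE.1 x' hx' y' hy' h
    · obtain ⟨x', hx', hx1, hx2⟩ := hmem x hx
      obtain ⟨y', hy', hy1, hy2⟩ := hmem y hy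
      rw [hx1, hy1] at h ⊢
      exact hE.2 x' hx' y' hy' h
  have hD' : ∀ x ∈ E.image f, ∀ y ∈ E.image f, ‖y.1 - x.1‖ ≤ s ∧ ‖y.2 - x.2‖ ≤ s := by
    intro x hx y hy
    obtain ⟨x', hx', hx1, hx2⟩ := hmem x hx
    obtain ⟨y', hy', hy1, hy2⟩ := hmem y hy
    rw [hx1, hx2, hy1, hy2, hconj]
    exact hD x' hx' y' hy'
  have hcard : (E.image f).card = E.card := card_image_of_injective _ hfinj
  obtain ⟨p, r, l, u, hl, hu, X, hpX, hcol, hX, hXc⟩ :=
    exists_mirrored hE' hD' h0 h1 hs (by rw [hcard]; exact hbig)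
  refine ⟨p, conj r, conj l, u, by rw [RCLike.norm_conj, hl], hu, X, hpX, hcol, fun z hz => ?_, ?_⟩
  · refine ⟨?_, (hX z hz).2⟩
    obtain ⟨y, hy, hy1, hy2⟩ := hmem _ (hX z hz).1
    simp only at hy1 hy2
    have h3 : conj r + conj l * (z - p) = y.2 := by
      have h4 := congrArg conj hy2
      rw [Complex.conj_conj, map_add, map_mul, Complex.conj_conj] at h4
      exact h4
    rw [h3, hy1]
    exact hy
  · rw [hcard] at hXc
    exact hXc

end SepDist12
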