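import Pool.Agent.H95M.Robust

/-!
# Many rich directions

In a large subset `B` of a distance-separated set some point is the centre of many strips which
contain many points of `B`.
-/

set_option autoImplicit false

open Finset ComplexConjugate MeasureTheory

namespace SepDist12

open SepDist H95M

/-- The direction of the strip. -/
lemma exists_dir_rel {l a : ℂ} (hl : ‖l‖ = 1) (ha : ‖a‖ = 1) : ∃ g : ℂ, ‖g‖ = 1 ∧
    a * g = l * conj g ∧ ∀ s : ℂ, ‖l * conj s - a * s‖ = 2 * |(conj g * s).im| := by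
  obtain ⟨g, hg⟩ := IsAlgClosed.exists_pow_nat_eq (l * conj a) (n := 2) (by norm_num)
  have hgn : ‖g‖ = 1 := by
    have h1 : ‖g‖ ^ 2 = 1 := by
      rw [← norm_pow, hg, norm_mul, RCLike.norm_conj, hl, ha, one_mul]
    nlinarith [norm_nonneg g]
  have hgg : conj g * g = 1 := by
    rw [← Complex.normSq_eq_conj_mul_self, Complex.normSq_eq_norm_sq, hgn]
    norm_num
  have haa : conj a * a = 1 := by
    rw [← Complex.normSq_eq_conj_mul_self, Complex.normSq_eq_norm_sq, ha]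
    norm_num
  have e2 : l = a * g ^ 2 := by
    rw [hg]
    calc l = l * (conj a * a) := by rw [haa, mul_one]
      _ = _ := by ring
  refine ⟨g, hgn, ?_, fun s => ?_⟩
  · calc a * g = a * g * (conj g * g) := by rw [hgg, mul_one]
      _ = a * g ^ 2 * conj g := by ring
      _ = l * conj g := by rw [← e2]
  have e1 : l * conj s - a * s = a * g * (conj (conj g * s) - conj g * s) := by
    rw [map_mul, Complex.conj_conj]
    calc l * conj s - a * s = a * g ^ 2 * conj s - a * (conj g * g) * s := by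
          rw [hgg, ← e2, mul_one]
      _ = _ := by ring
  rw [e1, norm_mul, norm_mul, ha, hgn, one_mul, one_mul, ← neg_sub, norm_neg, Complex.sub_conj,
    norm_mul, Complex.norm_I, mul_one, Complex.norm_real, Real.norm_eq_abs, abs_mul]
  norm_num

lemma inner_I_mul (g z : ℂ) : inner ℝ (Complex.I * g) z = (conj g * z).im := by
  rw [Complex.inner]
  simp only [map_mul, Complex.conj_I, Complex.mul_re, Complex.mul_im, Complex.neg_re,
    Complex.neg_im, Complex.I_re, Complex.I_im, Complex.conj_re, Complex.conj_im]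
  ring

/-- The unit normals of the strips of width `δ` centered at `p` with more than `t` points of `B`
which are not collinear. -/
def Rich (B : Finset ℂ) (δ t : ℝ) (p : ℂ) : Set ℂ :=
  {u | ‖u‖ = 1 ∧ ∃ S ⊆ B, t < (S.card : ℝ) ∧ (¬ Collinear ℝ (S : Set ℂ)) ∧
    ∀ z ∈ S, |inner ℝ u (z - p)| < δ / 2}

/-- Directions of strips which do not nearly coincide. -/
def Apart (ρ : ℝ) (G : Finset ℂ) : Prop :=
  ∀ u ∈ G, ∀ v ∈ G, u ≠ v → ρ ≤ ‖u - v‖ ∧ ρ ≤ ‖u + v‖

/-- A large improper clique gives two rich strips. -/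
lemma rich_of_clique {B : Finset ℂ} {δ t : ℝ} (h0 : 0 < δ) (h1 : δ ≤ 1 / 2)
    (hR : Rigid (B ×ˢ B)) {x : ℂ × ℂ} (hx : x ∈ B ×ˢ B) {a : ℂ} (ha : ‖a‖ = 1)
    (hnot : ¬ Proper (clique (B ×ˢ B) δ x a) x)
    (hcard : t < ((clique (B ×ˢ B) δ x a).card : ℝ)) :
    ∃ u ∈ Rich B δ t x.1, a * u ∈ Rich B δ t x.2 := by
  classical
  rcases clique_alt hR h0 h1 hx ha with hprop | ⟨⟨l, hl, hlx⟩, hcol, -⟩
  · exact absurd hprop hnot
  obtain ⟨g, hg, hag, hgs⟩ := exists_dir_rel hl ha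
  have hll : conj l * l = 1 := by
    rw [← Complex.normSq_eq_conj_mul_self, Complex.normSq_eq_norm_sq, hl]
    norm_num
  have hcol1 : ¬ Collinear ℝ (((clique (B ×ˢ B) δ x a).image Prod.fst : Finset ℂ) : Set ℂ) := by
    rw [coe_image]
    exact hcol
  have hcol2 : ¬ Collinear ℝ (((clique (B ×ˢ B) δ x a).image Prod.snd : Finset ℂ) : Set ℂ) := by
    intro hc
    apply hcol1
    have hxc := self_mem_clique h0 hx a
    have hx1 : x.1 ∈ (((clique (B ×ˢ B) δ x a).image Prod.fst : Finset ℂ) : Set ℂ) :=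
      mem_coe.2 (mem_image_of_mem _ hxc)
    have hx2 : x.2 ∈ (((clique (B ×ˢ B) δ x a).image Prod.snd : Finset ℂ) : Set ℂ) :=
      mem_coe.2 (mem_image_of_mem _ hxc)
    rw [collinear_iff_of_mem hx2] at hc
    rw [collinear_iff_of_mem hx1]
    obtain ⟨v, hv⟩ := hc
    refine ⟨l * conj v, fun z hz => ?_⟩
    obtain ⟨y, hy, rfl⟩ := mem_image.1 (mem_coe.1 hz)
    obtain ⟨r, hr⟩ := hv y.2 (mem_coe.2 (mem_image_of_mem _ hy))
    refine ⟨r, ?_⟩
    have h2 : y.2 - x.2 = r * v := by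
      rw [hr]
      simp
    have h3 := congrArg conj (hlx y hy)
    rw [h2, map_mul, map_mul, Complex.conj_conj, Complex.conj_ofReal] at h3
    have h4 : y.1 - x.1 = l * (r * conj v) := by
      rw [h3]
      calc y.1 - x.1 = (conj l * l) * (y.1 - x.1) := by rw [hll, one_mul]
        _ = _ := by ring
    have h5 : y.1 = (y.1 - x.1) + x.1 := by ring
    rw [h5, h4]
    simp only [Complex.real_smul, vadd_eq_add]
    ring
  have him : ∀ y ∈ clique (B ×ˢ B) δ x a, |(conj g * (y.1 - x.1)).im| < δ / 2 := by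
    intro y hy
    have h2 := hgs (y.1 - x.1)
    rw [← hlx y hy] at h2
    rw [H95M.mem_clique] at hy
    linarith [hy.2]
  refine ⟨Complex.I * g, ⟨?_, (clique (B ×ˢ B) δ x a).image Prod.fst, ?_, ?_, hcol1, ?_⟩,
    ?_, (clique (B ×ˢ B) δ x a).image Prod.snd, ?_, ?_, hcol2, ?_⟩
  · rw [norm_mul, Complex.norm_I, one_mul, hg]
  · intro z hz
    obtain ⟨y, hy, rfl⟩ := mem_image.1 hz
    exact (mem_product.1 (H95M.mem_clique.1 hy).1).1
  · rw [card_image_of_injOn (clique_fst_injOn hR h1 ha)]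
    exact hcard
  · intro z hz
    obtain ⟨y, hy, rfl⟩ := mem_image.1 hz
    rw [inner_I_mul]
    exact him y hy
  · rw [norm_mul, norm_mul, Complex.norm_I, one_mul, hg, ha, one_mul]
  · intro z hz
    obtain ⟨y, hy, rfl⟩ := mem_image.1 hz
    exact (mem_product.1 (H95M.mem_clique.1 hy).1).2
  · rw [card_image_of_injOn ?_]
    · exact hcard
    · intro y hy z hz h
      have h2 := H95M.clique_isometry hR h1 ha hy hz
      have h' : y.2 = z.2 := h
      rw [h', sub_self, norm_zero] at h2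
      exact Prod.ext (sub_eq_zero.1 (norm_eq_zero.1 h2)) h'
  · intro z hz
    obtain ⟨y, hy, rfl⟩ := mem_image.1 hz
    have e1 : a * (Complex.I * g) = Complex.I * (a * g) := by ring
    have e2 : conj (a * g) * (y.2 - x.2) = conj (conj g * (y.1 - x.1)) := by
      rw [hag, hlx y hy, map_mul, map_mul, Complex.conj_conj]
      calc conj l * g * (l * conj (y.1 - x.1)) = (conj l * l) * (g * conj (y.1 - x.1)) := by ring
        _ = g * conj (y.1 - x.1) := by rw [hll, one_mul]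
    rw [e1, inner_I_mul, e2, Complex.conj_im, abs_neg]
    exact him y hy

/-- A maximal set of separated directions covers all directions. -/
lemma exists_cover (W : Set ℂ) {ρ : ℝ} (hρ : 0 < ρ) (N : ℕ)
    (hN : ∀ G : Finset ℂ, (G : Set ℂ) ⊆ W → Apart ρ G → G.card ≤ N) :
    ∃ G : Finset ℂ, (G : Set ℂ) ⊆ W ∧ Apart ρ G ∧
      ∀ u ∈ W, ∃ g ∈ G, ‖u - g‖ < ρ ∨ ‖u + g‖ < ρ := by
  classical
  have hex : ∃ k, ∃ G : Finset ℂ, (G : Set ℂ) ⊆ W ∧ Apart ρ G ∧ G.card = k :=
    ⟨0, ∅, by simp, by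
      intro u hu
      exact absurd hu (notMem_empty _), rfl⟩
  have hbdd : ∀ k, (∃ G : Finset ℂ, (G : Set ℂ) ⊆ W ∧ Apart ρ G ∧ G.card = k) → k ≤ N := by
    rintro k ⟨G, h1, h2, rfl⟩
    exact hN G h1 h2
  obtain ⟨k, ⟨G, hGW, hG, hGk⟩, hkmax⟩ : ∃ k, (∃ G : Finset ℂ, (G : Set ℂ) ⊆ W ∧ Apart ρ G ∧
      G.card = k) ∧ ∀ k', (∃ G : Finset ℂ, (G : Set ℂ) ⊆ W ∧ Apart ρ G ∧ G.card = k') →
      k' ≤ k := by
    obtain ⟨k0, hk0⟩ := hex
    set P : ℕ → Prop := fun k => ∃ G : Finset ℂ, (G : Set ℂ) ⊆ W ∧ Apart ρ G ∧ G.card = k with hP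
    have h1 : P (Nat.findGreatest P N) := Nat.findGreatest_spec (P := P) (hbdd k0 hk0) hk0
    exact ⟨Nat.findGreatest P N, h1, fun k' hk' =>
      Nat.le_findGreatest (P := P) (hbdd k' hk') hk'⟩
  refine ⟨G, hGW, hG, fun u hu => ?_⟩
  by_contra hcon
  push Not at hcon
  have huG : u ∉ G := by
    intro h
    have h2 := (hcon u h).1
    rw [sub_self, norm_zero] at h2
    linarith
  have h3 := hkmax (insert u G).card ⟨insert u G, ?_, ?_, rfl⟩
  · rw [card_insert_of_notMem huG] at h3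
    omega
  · intro v hv
    rw [mem_coe, mem_insert] at hv
    rcases hv with rfl | hv
    · exact hu
    · exact hGW hv
  · intro v hv w hw hvw
    rw [mem_insert] at hv hw
    rcases hv with rfl | hv
    · rcases hw with rfl | hw
      · exact absurd rfl hvw
      · exact hcon w hw
    · rcases hw with rfl | hw
      · have h4 := hcon v hv
        rw [norm_sub_rev, add_comm]
        exact h4
      · exact hG v hv w hw hvw

/-- If the differences of the directions in two sets cover most of the circle then one of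
them has many separated elements. -/
lemma cover_measure {W W' : Set ℂ} {ρ : ℝ} (hρ : 0 < ρ) {G G' : Finset ℂ}
    (hW : ∀ u ∈ W, ∃ g ∈ G, ‖u - g‖ < ρ ∨ ‖u + g‖ < ρ)
    (hW' : ∀ u ∈ W', ∃ g ∈ G', ‖u - g‖ < ρ ∨ ‖u + g‖ < ρ)
    (hG : ∀ g ∈ G, ‖g‖ = 1) (hG' : ∀ g ∈ G', ‖g‖ = 1) :
    ang {φ : ℝ | ∃ u ∈ W, ex φ * u ∈ W'} ≤
      ENNReal.ofReal (12 * Real.pi * ρ * (G.card * G'.card)) := by
  classical
  have hsub : {φ : ℝ | ∃ u ∈ W, ex φ * u ∈ W'} ⊆ ⋃ k ∈ (G ×ˢ G') ×ˢ (Finset.univ : Finset Bool),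
      {φ : ℝ | ‖ex φ - (if k.2 then 1 else -1) * (k.1.2 * conj k.1.1)‖ ≤ 2 * ρ} := by
    rintro φ ⟨u, hu, hu'⟩
    obtain ⟨g, hg, hgu⟩ := hW u hu
    obtain ⟨g', hg', hgu'⟩ := hW' _ hu'
    have hgg : g * conj g = 1 := by
      rw [mul_comm, ← Complex.normSq_eq_conj_mul_self, Complex.normSq_eq_norm_sq, hG g hg]
      norm_num
    have hσ : ∃ σ : ℂ, (σ = 1 ∨ σ = -1) ∧ ‖u - σ * g‖ < ρ := by
      rcases hgu with h | h
      · exact ⟨1, Or.inl rfl, by rwa [one_mul]⟩
      · exact ⟨-1, Or.inr rfl, by rwa [neg_one_mul, sub_neg_eq_add]⟩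
    have hσ' : ∃ σ : ℂ, (σ = 1 ∨ σ = -1) ∧ ‖ex φ * u - σ * g'‖ < ρ := by
      rcases hgu' with h | h
      · exact ⟨1, Or.inl rfl, by rwa [one_mul]⟩
      · exact ⟨-1, Or.inr rfl, by rwa [neg_one_mul, sub_neg_eq_add]⟩
    obtain ⟨σ, hσ1, hσ2⟩ := hσ
    obtain ⟨σ', hσ1', hσ2'⟩ := hσ'
    have hs : σ * σ = 1 := by rcases hσ1 with rfl | rfl <;> ring
    have hsn : ‖σ‖ = 1 := by rcases hσ1 with rfl | rfl <;> simp
    have key : ‖ex φ - (σ * σ') * (g' * conj g)‖ ≤ 2 * ρ := by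
      have e : ex φ - (σ * σ') * (g' * conj g) = (ex φ * (σ * g) - σ' * g') * (σ * conj g) := by
        calc ex φ - (σ * σ') * (g' * conj g) =
            ex φ * ((σ * σ) * (g * conj g)) - (σ * σ') * (g' * conj g) := by
              rw [hs, hgg, mul_one, mul_one]
          _ = _ := by ring
      have e2 : ex φ * (σ * g) - σ' * g' =
          (ex φ * u - σ' * g') - ex φ * (u - σ * g) := by ring
      rw [e, norm_mul, norm_mul, hsn, RCLike.norm_conj, hG g hg, mul_one, mul_one, e2]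
      refine (norm_sub_le _ _).trans ?_
      rw [norm_mul, norm_ex, one_mul]
      linarith
    rw [Set.mem_iUnion₂]
    by_cases hpos : σ * σ' = 1
    · refine ⟨((g, g'), true), ?_, ?_⟩
      · simp only [mem_product, mem_univ, and_true]
        exact ⟨hg, hg'⟩
      · simp only [Set.mem_ofPred_eq, if_true]
        rw [hpos] at key
        exact key
    · have hneg : σ * σ' = -1 := by
        rcases hσ1 with rfl | rfl <;> rcases hσ1' with rfl | rfl <;> simp_all
      refine ⟨((g, g'), false), ?_, ?_⟩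
      · simp only [mem_product, mem_univ, and_true]
        exact ⟨hg, hg'⟩
      · simp only [Set.mem_ofPred_eq, Bool.false_eq_true, if_false]
        rw [hneg] at key
        exact key
  refine (measure_mono hsub).trans ((measure_biUnion_finset_le _ _).trans ?_)
  calc ∑ k ∈ (G ×ˢ G') ×ˢ (Finset.univ : Finset Bool),
        ang {φ : ℝ | ‖ex φ - (if k.2 then 1 else -1) * (k.1.2 * conj k.1.1)‖ ≤ 2 * ρ}
      ≤ ∑ _k ∈ (G ×ˢ G') ×ˢ (Finset.univ : Finset Bool), ENNReal.ofReal (3 * Real.pi * (2 * ρ)) := by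
        refine sum_le_sum fun k hk => ?_
        simp only [mem_product, mem_univ, and_true] at hk
        refine ang_arc_le ?_ (by positivity)
        rw [norm_mul, norm_mul, RCLike.norm_conj, hG _ hk.1, hG' _ hk.2]
        split_ifs <;> simp
    _ = ENNReal.ofReal (12 * Real.pi * ρ * (G.card * G'.card)) := by
        rw [sum_const, card_product, card_product, nsmul_eq_mul, ← ENNReal.ofReal_natCast,
          ← ENNReal.ofReal_mul (Nat.cast_nonneg _)]
        congr 1
        have e : (Finset.univ : Finset Bool).card = 2 := rfl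
        rw [e]
        push_cast
        ring

/-- **Many rich directions.** -/
theorem exists_many_directions {B : Finset ℂ} {δ t s ρ : ℝ} (h0 : 0 < δ) (h1 : δ ≤ 1 / 2)
    (hs1 : 1 ≤ s) (hρ0 : 0 < ρ) (hR : Rigid (B ×ˢ B)) (hsep : ∀ x ∈ B, ∀ y ∈ B, x ≠ y → 1 ≤ ‖x - y‖)
    (hB : ∀ x ∈ B, ∀ y ∈ B, ‖x - y‖ ≤ s) (hne : B.Nonempty) {m : ℕ} (hm : 8100 ≤ m) (htm : t < m)
    (hm2 : 324 * (s / (δ / 2)) ^ 2 * m * (2 * Real.pi) +
        1749600 / Real.sqrt m * (B ×ˢ B).card ≤ (B ×ˢ B).card) :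
    ∃ p ∈ B, ∃ G : Finset ℂ, (G : Set ℂ) ⊆ Rich B δ t p ∧ Apart ρ G ∧
      Real.sqrt (1 / ρ) ≤ 10 * G.card := by
  classical
  have hpi := Real.pi_gt_three
  have hpi' := Real.pi_lt_d2
  have hρs : ρ * (1 / ρ) = 1 := by
    field_simp
  set E := B ×ˢ B with hE
  have hEne : E.Nonempty := hne.product hne
  have hEpos : 0 < E.card := card_pos.2 hEne
  by_contra hcon
  push Not at hcon
  have key := robust (E := E) (fun x hx y hy hne => hsep _ (mem_product.1 hx).1 _
      (mem_product.1 hy).1 hne) (D := s) (τ := δ / 2)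
    (fun x hx y hy => hB _ (mem_product.1 hx).1 _ (mem_product.1 hy).1)
    (fun x hx y hy => hB _ (mem_product.1 hx).2 _ (mem_product.1 hy).2)
    (by positivity) (by linarith) hs1 hm
  have key2 := key.trans (ENNReal.ofReal_le_ofReal hm2)
  -- a pair for which most rotations are good
  obtain ⟨x, hx, hxbad⟩ : ∃ x ∈ E, ang {φ : ℝ | ¬ (¬ Proper (clique E (2 * (δ / 2)) x (ex φ)) x ∧
      m ≤ (clique E (δ / 2) x (ex φ)).card)} ≤ 1 := by
    by_contra hall
    have h2 : ∑ _x ∈ E, (1 : ENNReal) < ∑ x ∈ E, ang {φ : ℝ |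
        ¬ (¬ Proper (clique E (2 * (δ / 2)) x (ex φ)) x ∧
          m ≤ (clique E (δ / 2) x (ex φ)).card)} :=
      ENNReal.sum_lt_sum_of_nonempty hEne fun x hx => not_le.1 fun h => hall ⟨x, hx, h⟩
    rw [sum_const, nsmul_one] at h2
    rw [ENNReal.ofReal_natCast] at key2
    exact absurd key2 (not_le.2 h2)
  have hx12 := mem_product.1 hx
  -- covers of the sets of rich directions
  have hcov : ∀ p ∈ B, ∃ G : Finset ℂ, (G : Set ℂ) ⊆ Rich B δ t p ∧ Apart ρ G ∧
      ∀ u ∈ Rich B δ t p, ∃ g ∈ G, ‖u - g‖ < ρ ∨ ‖u + g‖ < ρ := by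
    intro p hp
    refine exists_cover _ hρ0 ⌈Real.sqrt (1 / ρ)⌉₊ fun G hG1 hG2 => ?_
    have h3 := hcon p hp G hG1 hG2
    have h4 := Nat.le_ceil (Real.sqrt (1 / ρ))
    have h5 : (G.card : ℝ) ≤ (⌈Real.sqrt (1 / ρ)⌉₊ : ℝ) := by
      have : (0 : ℝ) ≤ G.card := Nat.cast_nonneg _
      linarith
    exact_mod_cast h5
  obtain ⟨G, hG1, hG2, hG3⟩ := hcov x.1 hx12.1
  obtain ⟨G', hG1', hG2', hG3'⟩ := hcov x.2 hx12.2
  have hc1 := hcon x.1 hx12.1 G hG1 hG2
  have hc2 := hcon x.2 hx12.2 G' hG1' hG2'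
  have hgood := cover_measure hρ0 hG3 hG3' (fun g hg => (hG1 hg).1) (fun g hg => (hG1' hg).1)
  -- the circle is covered
  have htotal : ang Set.univ ≤ 1 + ENNReal.ofReal (12 * Real.pi * ρ * (G.card * G'.card)) := by
    have hsub : (Set.univ : Set ℝ) ⊆ {φ : ℝ | ¬ (¬ Proper (clique E (2 * (δ / 2)) x (ex φ)) x ∧
        m ≤ (clique E (δ / 2) x (ex φ)).card)} ∪
        {φ : ℝ | ∃ u ∈ Rich B δ t x.1, ex φ * u ∈ Rich B δ t x.2} := by
      intro φ _
      by_cases hφ : ¬ Proper (clique E (2 * (δ / 2)) x (ex φ)) x ∧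
        m ≤ (clique E (δ / 2) x (ex φ)).card
      · right
        obtain ⟨hnot, hlarge⟩ := hφ
        have e2 : 2 * (δ / 2) = δ := by ring
        rw [e2] at hnot
        refine rich_of_clique h0 h1 hR hx (norm_ex φ) hnot (lt_of_lt_of_le htm ?_)
        have h3 : m ≤ (clique E δ x (ex φ)).card := by
          refine hlarge.trans (card_le_card fun y hy => ?_)
          rw [H95M.mem_clique] at hy ⊢
          exact ⟨hy.1, hy.2.trans (by linarith)⟩
        exact_mod_cast h3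
      · left
        exact hφ
    refine (measure_mono hsub).trans ((measure_union_le _ _).trans ?_)
    exact add_le_add hxbad hgood
  rw [ang_univ] at htotal
  have hnum : 12 * Real.pi * ρ * (G.card * G'.card) ≤ 1 := by
    have h3 : (10 * G.card : ℝ) * (10 * G'.card) ≤
        Real.sqrt (1 / ρ) * Real.sqrt (1 / ρ) := by
      have : (0 : ℝ) ≤ G.card := Nat.cast_nonneg _
      have : (0 : ℝ) ≤ G'.card := Nat.cast_nonneg _
      gcongr
    rw [Real.mul_self_sqrt (by positivity)] at h3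
    have h4 : ρ * ((10 * G.card : ℝ) * (10 * G'.card)) ≤ 1 := by
      rw [← hρs]
      gcongr
    have h5 : 0 ≤ ρ * (G.card * G'.card : ℝ) := by positivity
    nlinarith
  have h6 : ENNReal.ofReal (2 * Real.pi) ≤ ENNReal.ofReal 2 := by
    refine htotal.trans ?_
    have h7 : ENNReal.ofReal (12 * Real.pi * ρ * (G.card * G'.card)) ≤ ENNReal.ofReal 1 :=
      ENNReal.ofReal_le_ofReal hnum
    rw [ENNReal.ofReal_one] at h7
    calc (1 : ENNReal) + ENNReal.ofReal (12 * Real.pi * ρ * (G.card * G'.card)) ≤ 1 + 1 := by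
          gcongr
      _ = ENNReal.ofReal 2 := by
          rw [one_add_one_eq_two]
          simp
  rw [ENNReal.ofReal_le_ofReal_iff (by norm_num)] at h6
  linarith

end SepDist12
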